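import Pool.Agent.U79.GY.Stm
import Pool.Agent.U998.GD.FEW

/-!
# GY-FEW: few sets have no large inert prime (helper780)

Port of `part2`, `part3` of `Pool/Agent/U998/GD/FEW.lean` (helper998, helper362) to the natural class.
-/

set_option autoImplicit false

open scoped Classical

namespace Pool.Agent.U780.GY.FEW

open Finset Filter
open Pool.Agent.Y703.CX (sm la eL zz S_SIE)
open Pool.Agent.U115.GD (S_MER)
open Pool.Agent.U79.GY
open Pool.Agent.U998.GD (mer_set)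
open Pool.Agent.Y495.CX.Few (PN euler prod_pos' le_of_mem_prod mert eL_tendsto log_small zz_ge
  loglog_zz rpow_eq)

lemma pr_of {G : Cfg} {p : ℕ} (h : Sp G p ∨ In G p) : p.Prime := by
  rcases h with h | h
  · exact h.1
  · exact h.1

lemma in_not {G : Cfg} (hG : Ok G) {p : ℕ} (h : In G p) : ¬ Hc G p :=
  (hG.hB _ h.2).2.2

lemma SS_mem {G : Cfg} {X : ℕ} {S : Finset ℕ} (h : S ∈ SS G X) :
    (∀ p ∈ S, Sp G p ∨ In G p) ∧ ∏ p ∈ S, p ≤ X := by
  unfold SS at h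
  rw [mem_filter] at h
  exact ⟨h.2.1, h.2.2⟩

/-- the reciprocals of the split primes -/
lemma mer_S (hm : S_MER) {G : Cfg} (hG : Ok G) : ∃ C : ℝ, 0 ≤ C ∧ ∀ y : ℕ, 3 ≤ y →
    ∑ p ∈ (PN y).filter (Sp G), (1 : ℝ) / p ≤ da G * Real.log (Real.log y) + C := by
  obtain ⟨C, hC0, hC⟩ := mer_set hm hG.q0 G.A (fun a ha =>
    ⟨(hG.hA a ha).2, Nat.mod_eq_of_lt (hG.hA a ha).1⟩)
  refine ⟨C, hC0, fun y hy => ?_⟩
  refine le_trans ?_ (hC y hy)
  refine sum_le_sum_of_subset_of_nonneg ?_ fun p _ _ => by positivity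
  intro p hp
  rw [mem_filter] at hp ⊢
  exact ⟨hp.1, hp.2.2⟩

/-- the reciprocals of the inert primes -/
lemma mer_I (hm : S_MER) {G : Cfg} (hG : Ok G) : ∃ C : ℝ, 0 ≤ C ∧ ∀ y : ℕ, 3 ≤ y →
    ∑ p ∈ (PN y).filter (In G), (1 : ℝ) / p ≤ db G * Real.log (Real.log y) + C := by
  obtain ⟨C, hC0, hC⟩ := mer_set hm hG.q0 G.B (fun a ha =>
    ⟨(hG.hB a ha).2.1, Nat.mod_eq_of_lt (hG.hB a ha).1⟩)
  refine ⟨C, hC0, fun y hy => ?_⟩
  refine le_trans ?_ (hC y hy)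
  refine sum_le_sum_of_subset_of_nonneg ?_ fun p _ _ => by positivity
  intro p hp
  rw [mem_filter] at hp ⊢
  exact ⟨hp.1, hp.2.2⟩

/-- a family of sets of primes of the class with a condition on the large primes -/
noncomputable def LL (G : Cfg) (X : ℕ) (Q : Finset ℕ → Prop) : Finset (Finset ℕ) :=
  (range (X + 1)).powerset.filter fun S => (∀ p ∈ S, Sp G p ∨ In G p) ∧ ∏ p ∈ S, p ≤ X ∧ Q S

lemma mem_LL {G : Cfg} {X : ℕ} {Q : Finset ℕ → Prop} {S : Finset ℕ} :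
    S ∈ LL G X Q ↔ S ⊆ range (X + 1) ∧
      (∀ p ∈ S, Sp G p ∨ In G p) ∧ ∏ p ∈ S, p ≤ X ∧ Q S := by
  unfold LL
  rw [mem_filter, mem_powerset]

lemma LL_sub {G : Cfg} {X : ℕ} {Q : Finset ℕ → Prop} (hQ : ∀ S, Q S → ∀ T, T ⊆ S → Q T)
    {S T : Finset ℕ} (hS : S ∈ LL G X Q) (h : T ⊆ S) : T ∈ LL G X Q := by
  rw [mem_LL] at hS ⊢
  obtain ⟨a0, a1, a2, a3⟩ := hS
  refine ⟨h.trans a0, fun p hp => a1 p (h hp), ?_, hQ S a3 T h⟩
  refine le_trans ?_ a2
  exact prod_le_prod_of_subset_of_one_le' h fun p hp _ => (pr_of (a1 p hp)).one_lt.le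

lemma mem_LL_of {G : Cfg} {X : ℕ} {Q : Finset ℕ → Prop} {S : Finset ℕ}
    (hS : S ∈ SS G X) (hQ : Q S) : S ∈ LL G X Q := by
  obtain ⟨a1, a3⟩ := SS_mem hS
  rw [mem_LL]
  refine ⟨?_, a1, a3, hQ⟩
  intro p hp
  rw [mem_range]
  have := le_of_mem_prod (fun p hp => pr_of (a1 p hp)) a3 hp
  omega

/-- the logarithmic density of a family -/
lemma LL_sum (G : Cfg) (X z : ℕ) (Q : Finset ℕ → Prop) (w : ℕ → ℝ) (M s t : ℝ)
    (hw : ∀ p, 0 ≤ w p) (hM : 0 ≤ M) (hs : 0 ≤ s) (ht : 0 ≤ t)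
    (h1w : ∀ S ∈ LL G X Q, 1 ≤ M * ∏ p ∈ S, w p)
    (hz : ∀ p, p ≤ z → w p ≤ 1) (hS : ∀ p, Sp G p → z < p → w p ≤ s)
    (hI : ∀ p, In G p → z < p → w p ≤ t) :
    ∑ S ∈ LL G X Q, (1 : ℝ) / ((∏ p ∈ S, p : ℕ) : ℝ) ≤ M *
      Real.exp (∑ p ∈ PN z, (1 : ℝ) / p + s * ∑ p ∈ (PN X).filter (Sp G), (1 : ℝ) / p +
        t * ∑ p ∈ (PN X).filter (In G), (1 : ℝ) / p) := by
  have h1 : ∀ S ∈ LL G X Q, (1 : ℝ) / ((∏ p ∈ S, p : ℕ) : ℝ) ≤
      M * ∏ p ∈ S, (w p * (1 / p)) := by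
    intro S hS
    have h2 := h1w S hS
    have h3 : (0 : ℝ) ≤ ∏ p ∈ S, (1 : ℝ) / p := prod_nonneg fun p _ => by positivity
    have h4 : (1 : ℝ) / ((∏ p ∈ S, p : ℕ) : ℝ) = ∏ p ∈ S, (1 : ℝ) / p := by
      rw [prod_div_distrib, prod_const_one]
      push_cast
      rfl
    rw [h4, prod_mul_distrib]
    calc ∏ p ∈ S, (1 : ℝ) / p = 1 * ∏ p ∈ S, (1 : ℝ) / p := (one_mul _).symm
      _ ≤ (M * ∏ p ∈ S, w p) * ∏ p ∈ S, (1 : ℝ) / p :=
          mul_le_mul_of_nonneg_right h2 h3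
      _ = _ := by ring
  refine (sum_le_sum h1).trans ?_
  rw [← mul_sum]
  apply mul_le_mul_of_nonneg_left _ hM
  have hnn : ∀ p : ℕ, 0 ≤ w p * (1 / (p : ℝ)) := fun p => mul_nonneg (hw p) (by positivity)
  have h5 : ∑ S ∈ LL G X Q, ∏ p ∈ S, (w p * (1 / (p : ℝ))) ≤
      ∑ S ∈ ((PN X).filter fun p => Sp G p ∨ In G p).powerset,
        ∏ p ∈ S, (w p * (1 / (p : ℝ))) := by
    refine sum_le_sum_of_subset_of_nonneg ?_ fun S _ _ => prod_nonneg fun p _ => hnn p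
    intro S hS
    rw [mem_LL] at hS
    rw [mem_powerset]
    intro p hp
    have h6 := pr_of (hS.2.1 p hp)
    rw [mem_filter, mem_filter, mem_Icc]
    exact ⟨⟨⟨h6.one_lt.le, le_of_mem_prod (fun p hp => pr_of (hS.2.1 p hp)) hS.2.2.1 hp⟩, h6⟩,
      hS.2.1 p hp⟩
  refine h5.trans ((euler _ _ fun p _ => hnn p).trans ?_)
  apply Real.exp_le_exp.2
  have h6 : ∀ p ∈ (PN X).filter fun p => Sp G p ∨ In G p, w p * (1 / (p : ℝ)) ≤
      (if p ≤ z then (1 : ℝ) / p else 0) + ((if Sp G p then s * (1 / (p : ℝ)) else 0) +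
        (if In G p then t * (1 / (p : ℝ)) else 0)) := by
    intro p hp
    have hp0 : (0 : ℝ) ≤ 1 / p := by positivity
    have e1 : (0 : ℝ) ≤ if Sp G p then s * (1 / (p : ℝ)) else 0 := by
      split_ifs
      · positivity
      · exact le_refl _
    have e2 : (0 : ℝ) ≤ if In G p then t * (1 / (p : ℝ)) else 0 := by
      split_ifs
      · positivity
      · exact le_refl _
    by_cases hpz : p ≤ z
    · rw [if_pos hpz]
      have := mul_le_mul_of_nonneg_right (hz p hpz) hp0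
      linarith
    · rw [if_neg hpz]
      rcases (mem_filter.1 hp).2 with h | h
      · rw [if_pos h]
        have := mul_le_mul_of_nonneg_right (hS p h (not_le.1 hpz)) hp0
        linarith
      · rw [if_pos h]
        have := mul_le_mul_of_nonneg_right (hI p h (not_le.1 hpz)) hp0
        linarith
  refine (sum_le_sum h6).trans ?_
  have h7 : ∑ p ∈ (PN X).filter (fun p => Sp G p ∨ In G p),
      ((if p ≤ z then (1 : ℝ) / p else 0) + ((if Sp G p then s * (1 / (p : ℝ)) else 0) +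
        (if In G p then t * (1 / (p : ℝ)) else 0))) ≤
      ∑ p ∈ PN X, ((if p ≤ z then (1 : ℝ) / p else 0) +
        ((if Sp G p then s * (1 / (p : ℝ)) else 0) +
        (if In G p then t * (1 / (p : ℝ)) else 0))) := by
    refine sum_le_sum_of_subset_of_nonneg (filter_subset _ _) fun p _ _ => ?_
    have hp0 : (0 : ℝ) ≤ 1 / p := by positivity
    have e0 : (0 : ℝ) ≤ if p ≤ z then (1 : ℝ) / p else 0 := by
      split_ifs
      · exact hp0
      · exact le_refl _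
    have e1 : (0 : ℝ) ≤ if Sp G p then s * (1 / (p : ℝ)) else 0 := by
      split_ifs
      · positivity
      · exact le_refl _
    have e2 : (0 : ℝ) ≤ if In G p then t * (1 / (p : ℝ)) else 0 := by
      split_ifs
      · positivity
      · exact le_refl _
    linarith
  refine h7.trans ?_
  rw [sum_add_distrib, sum_add_distrib, ← sum_filter, ← sum_filter, ← sum_filter, ← mul_sum,
    ← mul_sum, ← add_assoc]
  gcongr
  intro p hp
  rw [mem_filter, mem_filter, mem_Icc] at hp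
  rw [mem_filter, mem_Icc]
  exact ⟨⟨hp.1.1.1, hp.2⟩, hp.1.2⟩

/-- the number of the elements of a family closed under subsets -/
lemma part2 (hs : S_SIE) (hm : S_MER) {G : Cfg} (hG : Ok G) (s t e : ℝ) (hs0 : 0 ≤ s)
    (ht0 : 0 ≤ t) (Q : ℕ → Finset ℕ → Prop) (hQ : ∀ X S, Q X S → ∀ T, T ⊆ S → Q X T)
    (w : ℕ → ℕ → ℝ) (hw : ∀ X p, 0 ≤ w X p) (hz : ∀ X p, p ≤ zz X → w X p ≤ 1)
    (hS : ∀ X p, Sp G p → zz X < p → w X p ≤ s) (hN : ∀ X p, In G p → zz X < p → w X p ≤ t)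
    (h1w : ∀ X, 2 ≤ eL X → ∀ S ∈ LL G X (Q X), 1 ≤ Real.exp (e * eL X) * ∏ p ∈ S, w X p)
    {r : ℝ} (hr : -1 + e + s * da G + t * db G < r) :
    ∃ C : ℝ, 0 ≤ C ∧ ∀ᶠ X : ℕ in atTop,
    ((LL G X (Q X)).card : ℝ) ≤ C * X * Real.exp (r * eL X) := by
  obtain ⟨C, hC0, hC⟩ := mert
  obtain ⟨C₁, hC₁0, hC₁⟩ := mer_S hm hG
  obtain ⟨C₂, hC₂0, hC₂⟩ := mer_I hm hG
  obtain ⟨C', hC'1, hC'⟩ := hs
  refine ⟨C' * Real.exp (C + s * C₁ + t * C₂), by positivity, ?_⟩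
  have hε : 0 < r - (-1 + e + s * da G + t * db G) := by linarith
  filter_upwards [eL_tendsto.eventually (log_small 3 _ hε),
    eL_tendsto.eventually (eventually_ge_atTop 2), eventually_ge_atTop 3] with X h1 h2 h3
  set l := eL X with hl
  have h4 := hC (zz X) (zz_ge h2)
  have h5 := loglog_zz h2
  have h6 := hC₁ X h3
  have h6' := hC₂ X h3
  rw [← hl] at h5
  change _ ≤ da G * l + C₁ at h6
  change _ ≤ db G * l + C₂ at h6'
  have h7 := hC' X (LL G X (Q X)) (by omega)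
    (fun S hS => ⟨fun p hp => pr_of ((mem_LL.1 hS).2.1 p hp), (mem_LL.1 hS).2.2.1⟩)
    (fun S hS T hT => LL_sub (hQ X) hS hT)
  have h8 := LL_sum G X (zz X) (Q X) (w X) (Real.exp (e * l)) s t (hw X) (Real.exp_pos _).le
    hs0 ht0 (h1w X h2) (hz X) (hS X) (hN X)
  have hlX : Real.log X = Real.exp l := by
    have := rpow_eq (X := X) h2 1
    rwa [Real.rpow_one, one_mul] at this
  rw [hlX] at h7
  have h9 : s * ∑ p ∈ (PN X).filter (Sp G), (1 : ℝ) / p ≤ s * (da G * l + C₁) :=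
    mul_le_mul_of_nonneg_left h6 hs0
  have h10 : t * ∑ p ∈ (PN X).filter (In G), (1 : ℝ) / p ≤ t * (db G * l + C₂) :=
    mul_le_mul_of_nonneg_left h6' ht0
  have h12 : Real.exp (e * l) * Real.exp (∑ p ∈ PN (zz X), (1 : ℝ) / p +
      s * ∑ p ∈ (PN X).filter (Sp G), (1 : ℝ) / p +
        t * ∑ p ∈ (PN X).filter (In G), (1 : ℝ) / p) ≤
      Real.exp (C + s * C₁ + t * C₂) * Real.exp ((r + 1) * l) := by
    rw [← Real.exp_add, ← Real.exp_add]
    apply Real.exp_le_exp.2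
    have e1 : ∑ p ∈ PN (zz X), (1 : ℝ) / p ≤ 3 * Real.log l + C := by linarith
    calc e * l + (∑ p ∈ PN (zz X), (1 : ℝ) / p + s * ∑ p ∈ (PN X).filter (Sp G), (1 : ℝ) / p +
        t * ∑ p ∈ (PN X).filter (In G), (1 : ℝ) / p)
        ≤ e * l + ((r - (-1 + e + s * da G + t * db G)) * l + C +
          s * (da G * l + C₁) + t * (db G * l + C₂)) := by linarith
      _ = C + s * C₁ + t * C₂ + (r + 1) * l := by ring
  have h13 : ((LL G X (Q X)).card : ℝ) * Real.exp l ≤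
      C' * X * (Real.exp (C + s * C₁ + t * C₂) * Real.exp ((r + 1) * l)) := by
    refine h7.trans ?_
    exact mul_le_mul_of_nonneg_left (h8.trans h12) (by positivity)
  have h14 : (C' * Real.exp (C + s * C₁ + t * C₂) * X * Real.exp (r * l)) * Real.exp l =
      C' * X * (Real.exp (C + s * C₁ + t * C₂) * Real.exp ((r + 1) * l)) := by
    have : Real.exp ((r + 1) * l) = Real.exp (r * l) * Real.exp l := by
      rw [← Real.exp_add]
      congr 1
      ring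
    rw [this]
    ring
  rw [← h14] at h13
  exact le_of_mul_le_mul_right h13 (Real.exp_pos _)

/-- sets whose large primes are split -/
lemma part3 (hs : S_SIE) (hm : S_MER) {G : Cfg} (hG : Ok G) {r : ℝ}
    (hr : -1 + da G < r) : ∃ C : ℝ, 0 ≤ C ∧ ∀ᶠ X : ℕ in atTop,
    ((LL G X fun S => ∀ p ∈ la (zz X) S, Hc G p).card : ℝ) ≤
      C * X * Real.exp (r * eL X) := by
  refine part2 hs hm hG 1 0 0 zero_le_one le_rfl (fun X S => ∀ p ∈ la (zz X) S, Hc G p) ?_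
    (fun X p => if ¬ p ≤ zz X ∧ ¬ Hc G p then 0 else 1) ?_ ?_ ?_ ?_ ?_ ?_
  · intro X S h T hT p hp
    refine h p ?_
    unfold la at hp ⊢
    rw [mem_filter] at hp ⊢
    exact ⟨hT hp.1, hp.2⟩
  · intro X p
    split_ifs <;> norm_num
  · intro X p _
    split_ifs <;> norm_num
  · intro X p _ _
    split_ifs <;> norm_num
  · intro X p h h'
    rw [if_pos ⟨not_le.2 h', in_not hG h⟩]
  · intro X _ S hS
    rw [mem_LL] at hS
    rw [zero_mul, Real.exp_zero, one_mul]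
    refine le_of_eq (Eq.symm (prod_eq_one fun p hp => ?_))
    rw [if_neg]
    rintro ⟨h1, h2⟩
    exact h2 (hS.2.2.2 p (mem_filter.2 ⟨hp, h1⟩))
  · linarith

theorem t_FEW : S_FEW := by
  intro hs hm G hG
  have hdb : 0 < db G := by
    unfold db
    have h1 : 0 < G.B.card := card_pos.2 hG.hBn
    have h2 : 0 < Nat.totient G.Q := Nat.totient_pos.2 hG.q0
    positivity
  set δ : ℝ := db G / 2 with hδ
  have hδ0 : 0 < δ := by positivity
  set r : ℝ := -1 + dl G - δ with hr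
  have hr' : r = -1 + (da G + db G) - δ := by rw [hr, dl]
  obtain ⟨C₂, hC₂, h2⟩ := part3 hs hm hG (r := r) (by rw [hr', hδ]; linarith)
  have h4 := h2.and (eL_tendsto.eventually (eventually_ge_atTop 2))
  rw [eventually_atTop] at h4
  obtain ⟨X₀, hX₀⟩ := h4
  refine ⟨δ, C₂, X₀, hδ0, fun X hX => ?_⟩
  obtain ⟨h6, h9⟩ := hX₀ X hX
  rw [rpow_eq h9]
  have h11 : ((SS G X).filter fun S => ∀ p ∈ la (zz X) S, Hc G p) ⊆
      LL G X (fun S => ∀ p ∈ la (zz X) S, Hc G p) := by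
    intro S hS
    rw [mem_filter] at hS
    exact mem_LL_of hS.1 hS.2
  refine le_trans ?_ h6
  exact_mod_cast card_le_card h11

end Pool.Agent.U780.GY.FEW
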